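import Pool.Agent.Helper56.S12G.Pair
import Pool.Agent.Helper80.SU.Size
import Pool.Agent.Helper80.SU.Large
import Pool.Agent.S12.Cpt

/-!
# Proportion near one in all abelian groups: assembly

The two inputs are hypotheses here: the kernel bound `KernelBound` and the size bound `SizeBound`.
-/

set_option autoImplicit false

namespace Pool.Agent.Helper56.S12G

open Finset
open Pool.Agent.Helper80.SU
open Pool.Agent.S12.Typed (absorb_pair FDis combined_size)

/-- the elements of order dividing `Q` in the subgroup generated by `S` -/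
def KernelBound (G : Type*) [AddCommGroup G] : Prop :=
  ∀ (S X : Finset G) (Q : ℕ), 1 ≤ Q →
    (∀ x ∈ X, x ∈ AddSubgroup.closure (S : Set G) ∧ Q • x = 0) → X.card ≤ Q ^ S.card

/-- sets whose multiples have distinct subset sums and which are spanned by `B` -/
def SizeBound (G : Type*) [AddCommGroup G] [DecidableEq G] : Prop :=
  ∀ (p s : ℕ) (B D : Finset G),
    (∀ j : ℕ, 1 ≤ j → j < 2 ^ p → FDis (fun x : G => j • x) D) →
    (∀ u ∈ D, Sp (2 ^ p) s u B) → D.card ≤ 2 ^ p * 2 ^ (s + 1) * p * B.card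

variable {G : Type*} [AddCommGroup G] [DecidableEq G]

/-- if no element of a set lies in the subgroup generated by the others, in a hereditary way, then
the set has distinct subset sums -/
theorem diss_of_span (B : Finset G)
    (h : ∀ Z : Finset G, Z ⊆ B → Z.Nonempty → ∃ z ∈ Z, z ∉ AddSubgroup.closure (Z.erase z : Set G)) :
    Diss B := by
  intro X Y hX hY hs
  by_contra hne
  set Z := (X \ Y) ∪ (Y \ X) with hZ
  have hZB : Z ⊆ B :=
    Finset.union_subset (Finset.sdiff_subset.trans hX) (Finset.sdiff_subset.trans hY)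
  have hZne : Z.Nonempty := by
    rw [Finset.nonempty_iff_ne_empty]
    intro h0
    rw [hZ, Finset.union_eq_empty] at h0
    exact hne (Finset.Subset.antisymm (Finset.sdiff_eq_empty_iff_subset.mp h0.1)
      (Finset.sdiff_eq_empty_iff_subset.mp h0.2))
  have hs' : ∑ x ∈ X \ Y, x = ∑ y ∈ Y \ X, y := by
    have e1 : ∑ x ∈ X \ Y, x + ∑ x ∈ X ∩ Y, x = ∑ x ∈ X, x := by
      rw [add_comm, Finset.sum_inter_add_sum_sdiff]
    have e2 : ∑ x ∈ Y \ X, x + ∑ x ∈ X ∩ Y, x = ∑ x ∈ Y, x := by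
      rw [Finset.inter_comm, add_comm, Finset.sum_inter_add_sum_sdiff]
    have : ∑ x ∈ X \ Y, x + ∑ x ∈ X ∩ Y, x = ∑ x ∈ Y \ X, x + ∑ x ∈ X ∩ Y, x := by
      rw [e1, e2, hs]
    exact add_right_cancel this
  have key : ∀ U V : Finset G, Disjoint U V → ∑ x ∈ U, x = ∑ y ∈ V, y → ∀ z ∈ U,
      z ∈ AddSubgroup.closure ((U ∪ V).erase z : Set G) := by
    intro U V hUV hsum z hz
    have h1 : z = ∑ y ∈ V, y - ∑ x ∈ U.erase z, x := by
      rw [← hsum, ← Finset.add_sum_erase U (fun x => x) hz]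
      simp
    have hmem : ∀ w ∈ (U ∪ V).erase z, w ∈ AddSubgroup.closure ((U ∪ V).erase z : Set G) :=
      fun w hw => AddSubgroup.subset_closure (Finset.mem_coe.mpr hw)
    have h2 : ∑ y ∈ V, y - ∑ x ∈ U.erase z, x ∈ AddSubgroup.closure ((U ∪ V).erase z : Set G) := by
      refine AddSubgroup.sub_mem _ (AddSubgroup.sum_mem _ (fun y hy => hmem y ?_))
        (AddSubgroup.sum_mem _ (fun x hx => hmem x ?_))
      · rw [Finset.mem_erase]
        refine ⟨?_, Finset.mem_union_right _ hy⟩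
        rintro rfl
        exact (Finset.disjoint_left.mp hUV) hz hy
      · exact Finset.erase_subset_erase z Finset.subset_union_left hx
    rw [← h1] at h2
    exact h2
  obtain ⟨z, hz, hnot⟩ := h Z hZB hZne
  apply hnot
  rw [hZ, Finset.mem_union] at hz
  rcases hz with hz | hz
  · exact key _ _ disjoint_sdiff_sdiff hs' z hz
  · have := key (Y \ X) (X \ Y) disjoint_sdiff_sdiff hs'.symm z hz
    rwa [Finset.union_comm] at this

/-- The theorem for finite sets. -/
theorem finite_colouring_all (hker : KernelBound G) (hsz : SizeBound G)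
    (C p s K : ℕ)
    (hK : 2 * (1 + C * (2 * (2 ^ p * p) + 10 * (2 ^ p * 2 ^ (s + 1) * p))) ≤ K) (V : Finset G)
    (hV : ∀ B : Finset G, B ⊆ V → ∃ D : Finset G, D ⊆ B ∧ Diss D ∧ B.card ≤ C * D.card) :
    ∃ f : G → Bool × Fin K, ∀ B : Finset G, B ⊆ V → (∀ x ∈ B, ∀ y ∈ B, f x = f y) →
      Diss B ∨ Good (2 ^ p) s B := by
  classical
  set Cq := 2 ^ p * 2 ^ (s + 1) * p with hCq
  set L := 2 ^ p * p with hL
  set q := C * (2 * L + 10 * Cq) with hq
  obtain ⟨f, hf⟩ := absorb_pair V (fun S u => u ∈ AddSubgroup.closure (S : Set G))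
    (fun S u => Sp (2 ^ p) s u S)
    (fun S T u hST h => AddSubgroup.closure_mono (Finset.coe_subset.mpr hST) h)
    (fun S T u hST h => sp_mono u S T hST h) q K hK (by
      intro L' S S' hL' _ _ hT hF
      obtain ⟨D, hDL, hD, hcard⟩ := hV L' hL'
      have hfac : (2 ^ p).factorial ≤ 2 ^ L := by
        refine (Nat.factorial_le_pow (2 ^ p)).trans (le_of_eq ?_)
        rw [← pow_mul, mul_comm p (2 ^ p)]
      have h1 := combined_size (2 ^ p).factorial L hfac D S hD (fun d hd => hT d (hDL hd))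
        (fun X hX => hker S X _ (Nat.factorial_pos _) hX) (Cq * S'.card) (by
          intro T hTD hTdis
          refine hsz p s S' T ?_ (fun u hu => hF u (hDL (hTD hu)))
          intro j hj1 hj2
          exact Pool.Agent.S12.Typed.FDis.of_dvd (Nat.dvd_factorial hj1 hj2.le) hTdis)
      calc L'.card ≤ C * D.card := hcard
        _ ≤ C * (2 * L * S.card + 10 * (Cq * S'.card)) := Nat.mul_le_mul_left _ h1
        _ ≤ C * ((2 * L + 10 * Cq) * (S.card + S'.card)) := by
            apply Nat.mul_le_mul_left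
            nlinarith [Nat.zero_le (L * S'.card), Nat.zero_le (Cq * S.card)]
        _ = q * (S.card + S'.card) := by rw [hq]; ring)
  refine ⟨f, fun B hB hmono => ?_⟩
  rcases B.eq_empty_or_nonempty with rfl | hBne
  · left
    intro X Y hX hY _
    rw [Finset.subset_empty.mp hX, Finset.subset_empty.mp hY]
  have hsub : ∀ Z : Finset G, Z ⊆ B → Z.Nonempty →
      ((∀ x ∈ Z, (f x).1 = true) ∧ ∃ u ∈ Z, u ∉ AddSubgroup.closure (Z.erase u : Set G)) ∨
      ((∀ x ∈ Z, (f x).1 = false) ∧ ∃ u ∈ Z, ¬ Sp (2 ^ p) s u (Z.erase u)) :=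
    fun Z hZ hZne => hf Z (hZ.trans hB) hZne (fun x hx y hy => hmono x (hZ hx) y (hZ hy))
  rcases hsub B (Finset.Subset.refl B) hBne with ⟨htrue, -⟩ | ⟨hfalse, -⟩
  · left
    apply diss_of_span
    intro Z hZ hZne
    rcases hsub Z hZ hZne with ⟨-, h⟩ | ⟨h, -⟩
    · exact h
    · obtain ⟨z, hz⟩ := hZne
      have h1 := h z hz
      rw [htrue z (hZ hz)] at h1
      exact absurd h1 (by decide)
  · right
    intro Z hZ hZne
    rcases hsub Z hZ hZne with ⟨h, -⟩ | ⟨-, h⟩
    · obtain ⟨z, hz⟩ := hZne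
      have h1 := h z hz
      rw [hfalse z (hZ hz)] at h1
      exact absurd h1 (by decide)
    · exact h

/-- Proportion near one in every abelian group. -/
theorem main_all (hker : KernelBound G) (hsz : SizeBound G) (W : Set G) (C d K : ℕ) (hd : 1 ≤ d)
    (hK : 2 * (1 + C * (2 * (2 ^ (4 * d + 5) * (4 * d + 5))
      + 10 * (2 ^ (4 * d + 5) * 2 ^ (4 * d + 5 + d + 1 + 1) * (4 * d + 5)))) ≤ K)
    (hW : ∀ B : Finset G, (B : Set G) ⊆ W →
      ∃ D : Finset G, D ⊆ B ∧ Diss D ∧ B.card ≤ C * D.card) :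
    ∃ f : G → Fin (2 * K),
      ∀ B : Finset G, (B : Set G) ⊆ W → (∀ x ∈ B, ∀ y ∈ B, f x = f y) →
        ∃ D : Finset G, D ⊆ B ∧ Diss D ∧ (d - 1) * B.card ≤ d * D.card := by
  have h2d : 2 * d ≤ 2 ^ d := by
    obtain ⟨n, rfl⟩ : ∃ n, d = n + 1 := ⟨d - 1, by omega⟩
    have : n < 2 ^ n := Nat.lt_two_pow_self
    rw [pow_succ]
    omega
  let e : Bool × Fin K ≃ Fin (2 * K) :=
    (Equiv.prodCongr finTwoEquiv.symm (Equiv.refl (Fin K))).trans finProdFinEquiv
  obtain ⟨f, hf⟩ := Pool.Agent.S12.compactness (2 * K) W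
    (fun B => Diss B ∨ Good (2 ^ (4 * d + 5)) (4 * d + 5 + d + 1) B) (by
      intro V hV
      obtain ⟨f, hf⟩ := finite_colouring_all hker hsz C (4 * d + 5) (4 * d + 5 + d + 1) K
        hK V
        (fun B hB => hW B (fun x hx => hV (Finset.mem_coe.mpr (hB (Finset.mem_coe.mp hx)))))
      refine ⟨fun x => e (f x), fun B hB hmono => hf B hB (fun x hx y hy => ?_)⟩
      exact e.injective (hmono x hx y hy))
  refine ⟨f, fun B hB hmono => ?_⟩
  rcases hf B hB hmono with h | h
  · refine ⟨B, Finset.Subset.refl B, h, ?_⟩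
    exact Nat.mul_le_mul_right _ (Nat.sub_le _ _)
  · exact good_large hd rfl h2d rfl B h

end Pool.Agent.Helper56.S12G
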