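import Pool.Agent.Helper56.S12G.Typed

/-!
# Two kinds of absorption, and Pajor's inequality for a family of sums
-/

set_option autoImplicit false

namespace Pool.Agent.S12.Typed

open Finset

/-- Colouring with `K` colours of each of two types. -/
theorem absorb_pair {α : Type*} [DecidableEq α] (V : Finset α) (abT abF : Finset α → α → Prop)
    (monoT : ∀ S T : Finset α, ∀ u, S ⊆ T → abT S u → abT T u)
    (monoF : ∀ S T : Finset α, ∀ u, S ⊆ T → abF S u → abF T u)
    (q K : ℕ) (hK : 2 * (1 + q) ≤ K)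
    (hsize : ∀ L S S' : Finset α, L ⊆ V → S ⊆ V → S' ⊆ V → (∀ u ∈ L, abT S u) →
      (∀ u ∈ L, abF S' u) → L.card ≤ q * (S.card + S'.card)) :
    ∃ c : α → Bool × Fin K, ∀ B : Finset α, B ⊆ V → B.Nonempty →
      (∀ x ∈ B, ∀ y ∈ B, c x = c y) →
        ((∀ x ∈ B, (c x).1 = true) ∧ ∃ u ∈ B, ¬ abT (B.erase u) u) ∨
        ((∀ x ∈ B, (c x).1 = false) ∧ ∃ u ∈ B, ¬ abF (B.erase u) u) := by
  classical
  have hKpos : 0 < K := by omega
  have : Nonempty (Fin K) := ⟨⟨0, hKpos⟩⟩
  obtain ⟨c, hc⟩ := absorb_typed (κ := Bool × Fin K) V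
    (fun j S u => if j.1 = true then abT S u else abF S u) (by
      intro j S T u hST h
      by_cases hj : j.1 = true
      · rw [if_pos hj] at h ⊢
        exact monoT S T u hST h
      · rw [if_neg hj] at h ⊢
        exact monoF S T u hST h) (by
      intro R hR S hS hab
      have h1 : ∀ b : Fin K, R.card ≤ (1 + q) * ((S (true, b)).card + (S (false, b)).card) := by
        intro b
        set L := R \ (S (true, b) ∪ S (false, b)) with hL
        have hLsize : L.card ≤ q * ((S (true, b)).card + (S (false, b)).card) := by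
          refine hsize L _ _ (Finset.sdiff_subset.trans hR) ((hS _).trans hR) ((hS _).trans hR)
            ?_ ?_
          · intro u hu
            rw [hL, Finset.mem_sdiff, Finset.mem_union] at hu
            have := hab (true, b) u hu.1 (fun h => hu.2 (Or.inl h))
            simpa using this
          · intro u hu
            rw [hL, Finset.mem_sdiff, Finset.mem_union] at hu
            have := hab (false, b) u hu.1 (fun h => hu.2 (Or.inr h))
            simpa using this
        have h2 : R.card ≤ L.card + ((S (true, b)).card + (S (false, b)).card) := by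
          calc R.card ≤ (L ∪ (S (true, b) ∪ S (false, b))).card := by
                apply Finset.card_le_card
                rw [hL, Finset.sdiff_union_self_eq_union]
                exact Finset.subset_union_left
            _ ≤ L.card + (S (true, b) ∪ S (false, b)).card := Finset.card_union_le _ _
            _ ≤ _ := Nat.add_le_add_left (Finset.card_union_le _ _) _
        calc R.card ≤ _ := h2
          _ ≤ q * ((S (true, b)).card + (S (false, b)).card)
              + ((S (true, b)).card + (S (false, b)).card) := Nat.add_le_add_right hLsize _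
          _ = _ := by ring
      have h3 : ∑ j : Bool × Fin K, (S j).card
          = ∑ b : Fin K, ((S (true, b)).card + (S (false, b)).card) := by
        rw [Fintype.sum_prod_type, Fintype.sum_bool, Finset.sum_add_distrib]
      have h4 : K * R.card ≤ (1 + q) * ∑ j : Bool × Fin K, (S j).card := by
        calc K * R.card = ∑ _b : Fin K, R.card := by simp
          _ ≤ ∑ b : Fin K, (1 + q) * ((S (true, b)).card + (S (false, b)).card) :=
              Finset.sum_le_sum (fun b _ => h1 b)
          _ = _ := by rw [h3, Finset.mul_sum]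
      have h5 : (1 + q) * (2 * R.card) ≤ (1 + q) * ∑ j : Bool × Fin K, (S j).card := by
        calc (1 + q) * (2 * R.card) = (2 * (1 + q)) * R.card := by ring
          _ ≤ K * R.card := Nat.mul_le_mul_right _ hK
          _ ≤ _ := h4
      have h6 := Nat.le_of_mul_le_mul_left h5 (by omega)
      omega)
  refine ⟨c, ?_⟩
  intro B hBV hBn hBc
  obtain ⟨x0, hx0⟩ := hBn
  obtain ⟨u, hu, hnot⟩ := hc (c x0) B hBV ⟨x0, hx0⟩ (fun x hx => hBc x hx x0 hx0)
  by_cases h : (c x0).1 = true
  · left
    refine ⟨fun x hx => by rw [hBc x hx x0 hx0]; exact h, u, hu, ?_⟩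
    simpa only [if_pos h] using hnot
  · right
    have h' : (c x0).1 = false := by simpa using h
    refine ⟨fun x hx => by rw [hBc x hx x0 hx0]; exact h', u, hu, ?_⟩
    simpa only [if_neg h] using hnot

/-- distinct subset sums of the family `φ x`, `x ∈ T` -/
def FDis {α β : Type*} [AddCommMonoid β] (φ : α → β) (T : Finset α) : Prop :=
  ∀ X Y : Finset α, X ⊆ T → Y ⊆ T → ∑ x ∈ X, φ x = ∑ y ∈ Y, φ y → X = Y

section Pajor

variable {α β : Type*} [DecidableEq α] [AddCommGroup β] [DecidableEq β]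

/-- the values of the subset sums of the family -/
def fsum (φ : α → β) (B : Finset α) : Finset β := B.powerset.image (fun F => ∑ x ∈ F, φ x)

open Classical in
/-- Pajor: the number of values of the subset sums is at most the number of subsets with distinct
subset sums. -/
theorem card_fsum_le (φ : α → β) (B : Finset α) :
    #(fsum φ B) ≤ #{T ∈ B.powerset | FDis φ T} := by
  obtain ⟨W, hWinj, hWadd⟩ : ∃ W : Finset α → ℕ,
      (∀ X Y : Finset α, X ⊆ B → Y ⊆ B → W X = W Y → X = Y) ∧
      (∀ X Y : Finset α, Disjoint X Y → W (X ∪ Y) = W X + W Y) := by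
    let e : α → ℕ := fun a => if h : a ∈ B then (B.equivFin ⟨a, h⟩ : ℕ) else 0
    have he : ∀ a ∈ B, ∀ b ∈ B, e a = e b → a = b := by
      intro a ha b hb hab
      simp only [e, dif_pos ha, dif_pos hb] at hab
      have := B.equivFin.injective (Fin.ext hab)
      exact congrArg Subtype.val this
    refine ⟨fun X => ∑ x ∈ X, 2 ^ e x, ?_, ?_⟩
    · intro X Y hX hY hXY
      have h1 : ∀ Z : Finset α, Z ⊆ B → ∑ x ∈ Z, 2 ^ e x = ∑ i ∈ Z.image e, 2 ^ i := by
        intro Z hZ
        rw [Finset.sum_image]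
        intro a ha b hb hab
        exact he a (hZ ha) b (hZ hb) hab
      have h2 : ∑ i ∈ X.image e, 2 ^ i = ∑ i ∈ Y.image e, 2 ^ i := by
        rw [← h1 X hX, ← h1 Y hY]; exact hXY
      have h3 := Finset.geomSum_injective (n := 2) le_rfl h2
      have h4 : ∀ U V : Finset α, U ⊆ B → V ⊆ B → U.image e = V.image e → U ⊆ V := by
        intro U V hU hV hUV a ha
        have : e a ∈ V.image e := hUV ▸ Finset.mem_image_of_mem e ha
        obtain ⟨b, hb, hba⟩ := Finset.mem_image.mp this
        rw [← he b (hV hb) a (hU ha) hba]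
        exact hb
      exact Finset.Subset.antisymm (h4 X Y hX hY h3) (h4 Y X hY hX h3.symm)
    · intro X Y hXY
      exact Finset.sum_union hXY
  set Fam : Finset (Finset α) := B.powerset.filter
    (fun F => ∀ F' ⊆ B, ∑ x ∈ F', φ x = ∑ x ∈ F, φ x → W F ≤ W F') with hFam
  have h1 : #(fsum φ B) ≤ #Fam := by
    have : fsum φ B ⊆ Fam.image (fun F => ∑ x ∈ F, φ x) := by
      intro y hy
      obtain ⟨F0, hF0, hF0y⟩ := Finset.mem_image.mp hy
      have hne : (B.powerset.filter (fun F => ∑ x ∈ F, φ x = y)).Nonempty :=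
        ⟨F0, Finset.mem_filter.mpr ⟨hF0, hF0y⟩⟩
      obtain ⟨F, hF, hmin⟩ := Finset.exists_min_image _ W hne
      rw [Finset.mem_filter] at hF
      refine Finset.mem_image.mpr ⟨F, ?_, hF.2⟩
      rw [hFam, Finset.mem_filter]
      refine ⟨hF.1, fun F' hF' hs => hmin F' ?_⟩
      rw [Finset.mem_filter, Finset.mem_powerset]
      exact ⟨hF', hs.trans hF.2⟩
    exact (Finset.card_le_card this).trans Finset.card_image_le
  have h2 := Finset.card_le_card_shatterer Fam
  refine h1.trans (h2.trans (Finset.card_le_card ?_))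
  intro T hT
  rw [Finset.mem_shatterer] at hT
  have hTB : T ⊆ B := by
    obtain ⟨u, hu, huT⟩ := hT (Finset.Subset.refl T)
    rw [hFam, Finset.mem_filter, Finset.mem_powerset] at hu
    rw [← huT]
    exact Finset.inter_subset_right.trans hu.1
  rw [Finset.mem_filter, Finset.mem_powerset]
  refine ⟨hTB, ?_⟩
  have key : ∀ X Y : Finset α, X ⊆ T → Y ⊆ T → Disjoint X Y → ∑ x ∈ X, φ x = ∑ y ∈ Y, φ y →
      ¬ W X < W Y := by
    intro X Y hX hY hXY hs hlt
    obtain ⟨F, hF, hFT⟩ := hT hY
    rw [hFam, Finset.mem_filter, Finset.mem_powerset] at hF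
    have hYF : Y ⊆ F := by rw [← hFT]; exact Finset.inter_subset_right
    have hXF : Disjoint X (F \ Y) := by
      rw [Finset.disjoint_left]
      intro a haX haF
      rw [Finset.mem_sdiff] at haF
      have : a ∈ T ∩ F := Finset.mem_inter.mpr ⟨hX haX, haF.1⟩
      rw [hFT] at this
      exact haF.2 this
    have hFY : F = Y ∪ (F \ Y) := (Finset.union_sdiff_of_subset hYF).symm
    have hsum : ∑ x ∈ X ∪ (F \ Y), φ x = ∑ x ∈ F, φ x := by
      rw [Finset.sum_union hXF, hs]
      conv_rhs => rw [hFY]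
      rw [Finset.sum_union Finset.disjoint_sdiff]
    have hle := hF.2 (X ∪ (F \ Y)) (Finset.union_subset (hX.trans hTB)
      (Finset.sdiff_subset.trans hF.1)) hsum
    rw [hWadd _ _ hXF] at hle
    have hWF : W F = W Y + W (F \ Y) := by
      conv_lhs => rw [hFY]
      exact hWadd _ _ Finset.disjoint_sdiff
    omega
  intro X Y hX hY hs
  have hX' : X \ Y ⊆ T := Finset.sdiff_subset.trans hX
  have hY' : Y \ X ⊆ T := Finset.sdiff_subset.trans hY
  have hd : Disjoint (X \ Y) (Y \ X) := disjoint_sdiff_sdiff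
  have hs' : ∑ x ∈ X \ Y, φ x = ∑ y ∈ Y \ X, φ y := by
    have e1 : ∑ x ∈ X \ Y, φ x + ∑ x ∈ X ∩ Y, φ x = ∑ x ∈ X, φ x := by
      rw [add_comm, Finset.sum_inter_add_sum_sdiff]
    have e2 : ∑ x ∈ Y \ X, φ x + ∑ x ∈ X ∩ Y, φ x = ∑ x ∈ Y, φ x := by
      rw [Finset.inter_comm, add_comm, Finset.sum_inter_add_sum_sdiff]
    have : ∑ x ∈ X \ Y, φ x + ∑ x ∈ X ∩ Y, φ x = ∑ x ∈ Y \ X, φ x + ∑ x ∈ X ∩ Y, φ x := by
      rw [e1, e2, hs]
    exact add_right_cancel this
  have hWeq : W (X \ Y) = W (Y \ X) := by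
    have k1 := key _ _ hX' hY' hd hs'
    have k2 := key _ _ hY' hX' hd.symm hs'.symm
    omega
  have heq := hWinj _ _ (hX'.trans hTB) (hY'.trans hTB) hWeq
  have hemp : X \ Y = ∅ := by
    have : Disjoint (X \ Y) (X \ Y) := by
      conv_rhs => rw [heq]
      exact hd
    exact Finset.disjoint_self_iff_empty _ |>.mp this
  have hemp' : Y \ X = ∅ := heq ▸ hemp
  exact Finset.Subset.antisymm (Finset.sdiff_eq_empty_iff_subset.mp hemp)
    (Finset.sdiff_eq_empty_iff_subset.mp hemp')

/-- If the family has at least `2 ^ (n / 2)` subset sums then a tenth of it has distinct subset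
sums. -/
theorem exists_fdis (φ : α → β) (B : Finset α) (h : 2 ^ #B ≤ #(fsum φ B) ^ 2) :
    ∃ T : Finset α, T ⊆ B ∧ FDis φ T ∧ #B ≤ 10 * #T := by
  classical
  have hne : (B.powerset.filter (fun T => FDis φ T)).Nonempty := by
    refine ⟨∅, Finset.mem_filter.mpr ⟨Finset.empty_mem_powerset B, ?_⟩⟩
    intro X Y hX hY _
    rw [Finset.subset_empty.mp hX, Finset.subset_empty.mp hY]
  obtain ⟨D, hD, hmax⟩ := Finset.exists_max_image _ Finset.card hne
  rw [Finset.mem_filter, Finset.mem_powerset] at hD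
  refine ⟨D, hD.1, hD.2, ?_⟩
  have hDB : #D ≤ #B := Finset.card_le_card hD.1
  set n := #B with hn
  set r := #D with hr
  set N := #(fsum φ B) with hN
  have h1 : N * 8 ^ (n - r) ≤ 9 ^ n := by
    calc N * 8 ^ (n - r) ≤ #(B.powerset.filter (fun T => FDis φ T)) * 8 ^ (n - r) :=
          Nat.mul_le_mul_right _ (card_fsum_le φ B)
      _ = ∑ T ∈ B.powerset.filter (fun T => FDis φ T), 8 ^ (n - r) := by
          rw [Finset.sum_const, smul_eq_mul]
      _ ≤ ∑ T ∈ B.powerset.filter (fun T => FDis φ T), 8 ^ (n - #T) := by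
          refine Finset.sum_le_sum (fun T hT => ?_)
          apply Nat.pow_le_pow_right (by norm_num)
          have := hmax T hT
          omega
      _ ≤ ∑ T ∈ B.powerset, 8 ^ (n - #T) :=
          Finset.sum_le_sum_of_subset (Finset.filter_subset _ _)
      _ = (1 + 8) ^ n := by
          rw [hn, ← Finset.sum_pow_mul_eq_add_pow 1 8 B]
          refine Finset.sum_congr rfl (fun T _ => ?_)
          rw [one_pow, one_mul]
      _ = 9 ^ n := by norm_num
  have h2 : 2 ^ n * 64 ^ (n - r) ≤ 81 ^ n := by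
    calc 2 ^ n * 64 ^ (n - r) ≤ N ^ 2 * 64 ^ (n - r) := Nat.mul_le_mul_right _ h
      _ = (N * 8 ^ (n - r)) ^ 2 := by
          rw [mul_pow, ← pow_mul, mul_comm (n - r) 2, pow_mul]
          norm_num
      _ ≤ (9 ^ n) ^ 2 := Nat.pow_le_pow_left h1 2
      _ = 81 ^ n := by
          rw [← pow_mul, mul_comm n 2, pow_mul]
          norm_num
  have h3 : 128 ^ n ≤ 81 ^ n * 64 ^ r := by
    calc 128 ^ n = 2 ^ n * 64 ^ n := by rw [← mul_pow]; norm_num
      _ = 2 ^ n * (64 ^ (n - r) * 64 ^ r) := by rw [← pow_add, Nat.sub_add_cancel hDB]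
      _ = (2 ^ n * 64 ^ (n - r)) * 64 ^ r := by ring
      _ ≤ _ := Nat.mul_le_mul_right _ h2
  by_contra hcon
  push Not at hcon
  have hsplit : n = 10 * r + (n - 10 * r) := by omega
  have hpos : 1 ≤ n - 10 * r := by omega
  set k := n - 10 * r with hk
  have h4 : 81 ^ n * 64 ^ r < 128 ^ n := by
    have e1 : (81 : ℕ) ^ k < 128 ^ k := Nat.pow_lt_pow_left (by norm_num) (by omega)
    have e2 : ((81 : ℕ) ^ 10 * 64) ^ r ≤ (128 ^ 10) ^ r := Nat.pow_le_pow_left (by norm_num) r
    calc (81 : ℕ) ^ n * 64 ^ r = (81 ^ 10 * 64) ^ r * 81 ^ k := by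
          rw [hsplit, pow_add, pow_mul, mul_pow]
          ring
      _ < (81 ^ 10 * 64) ^ r * 128 ^ k := Nat.mul_lt_mul_of_pos_left e1 (by positivity)
      _ ≤ (128 ^ 10) ^ r * 128 ^ k := Nat.mul_le_mul_right _ e2
      _ = 128 ^ n := by
          rw [← pow_mul, ← pow_add, ← hsplit]
  omega

end Pajor

/-- The combined size bound: `D` has distinct subset sums, lies in the subgroup generated by `S`
and every part of it on which the family `Q d` has distinct subset sums is small. -/
theorem combined_size {A : Type*} [AddCommGroup A] [DecidableEq A] (Q L : ℕ) (hQL : Q ≤ 2 ^ L)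
    (D S : Finset A) (hD : ∀ X Y : Finset A, X ⊆ D → Y ⊆ D → ∑ x ∈ X, x = ∑ y ∈ Y, y → X = Y)
    (hDS : ∀ d ∈ D, d ∈ AddSubgroup.closure (S : Set A))
    (hker : ∀ X : Finset A, (∀ x ∈ X, x ∈ AddSubgroup.closure (S : Set A) ∧ Q • x = 0) →
      X.card ≤ Q ^ S.card) (m : ℕ)
    (hF : ∀ T : Finset A, T ⊆ D → FDis (fun x : A => Q • x) T → T.card ≤ m) :
    D.card ≤ 2 * L * S.card + 10 * m := by
  classical
  by_cases hn : D.card ≤ 2 * L * S.card
  · omega
  push Not at hn
  set n := D.card with hndef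
  -- the subset sums
  set P : Finset A := D.powerset.image (fun F => ∑ x ∈ F, x) with hP
  have hPcard : P.card = 2 ^ n := by
    rw [hP, Finset.card_image_of_injOn, Finset.card_powerset]
    intro X hX Y hY hXY
    rw [Finset.mem_coe, Finset.mem_powerset] at hX hY
    exact hD X Y hX hY hXY
  have hPS : ∀ y ∈ P, y ∈ AddSubgroup.closure (S : Set A) := by
    intro y hy
    obtain ⟨F, hF', rfl⟩ := Finset.mem_image.mp hy
    rw [Finset.mem_powerset] at hF'
    exact AddSubgroup.sum_mem _ (fun x hx => hDS x (hF' hx))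
  have himg : P.image (fun y => Q • y) = fsum (fun x : A => Q • x) D := by
    rw [hP, Finset.image_image]
    unfold fsum
    apply Finset.image_congr
    intro F _
    simp only [Function.comp_apply]
    rw [Finset.smul_sum]
  have hfib : P.card ≤ Q ^ S.card * (P.image (fun y => Q • y)).card := by
    apply Finset.card_le_mul_card_image
    intro z hz
    obtain ⟨y0, hy0, hy0z⟩ := Finset.mem_image.mp hz
    have hinj : (P.filter (fun y => Q • y = z)).card
        = ((P.filter (fun y => Q • y = z)).image (fun y => y - y0)).card := by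
      rw [Finset.card_image_of_injective _ (fun a b h => sub_left_injective h)]
    rw [hinj]
    apply hker
    intro x hx
    obtain ⟨y, hy, rfl⟩ := Finset.mem_image.mp hx
    rw [Finset.mem_filter] at hy
    refine ⟨AddSubgroup.sub_mem _ (hPS y hy.1) (hPS y0 hy0), ?_⟩
    rw [smul_sub, hy.2, ← hy0z, sub_self]
  rw [himg, hPcard] at hfib
  have hQpow : (Q ^ S.card) ^ 2 ≤ 2 ^ n := by
    calc (Q ^ S.card) ^ 2 ≤ ((2 ^ L) ^ S.card) ^ 2 := by gcongr
      _ = 2 ^ (2 * L * S.card) := by
          rw [← pow_mul, ← pow_mul]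
          congr 1
          ring
      _ ≤ 2 ^ n := Nat.pow_le_pow_right (by norm_num) hn.le
  have hsq : 2 ^ n ≤ #(fsum (fun x : A => Q • x) D) ^ 2 := by
    have h1 : 2 ^ n * 2 ^ n ≤ 2 ^ n * #(fsum (fun x : A => Q • x) D) ^ 2 := by
      calc 2 ^ n * 2 ^ n = (2 ^ n) ^ 2 := by ring
        _ ≤ (Q ^ S.card * #(fsum (fun x : A => Q • x) D)) ^ 2 := Nat.pow_le_pow_left hfib 2
        _ = (Q ^ S.card) ^ 2 * #(fsum (fun x : A => Q • x) D) ^ 2 := by ring
        _ ≤ _ := Nat.mul_le_mul_right _ hQpow
    exact Nat.le_of_mul_le_mul_left h1 (by positivity)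
  obtain ⟨T, hTD, hT, hcard⟩ := exists_fdis (fun x : A => Q • x) D hsq
  have := hF T hTD hT
  omega

/-- if the family `Q x` has distinct subset sums then so has `j x` for every divisor `j` of `Q`. -/
theorem FDis.of_dvd {A : Type*} [AddCommGroup A] {Q j : ℕ} (hj : j ∣ Q) {T : Finset A}
    (h : FDis (fun x : A => Q • x) T) : FDis (fun x : A => j • x) T := by
  obtain ⟨k, rfl⟩ := hj
  intro X Y hX hY hs
  apply h X Y hX hY
  have e : ∀ Z : Finset A, ∑ x ∈ Z, (j * k) • x = k • ∑ x ∈ Z, j • x := by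
    intro Z
    rw [Finset.smul_sum]
    refine Finset.sum_congr rfl (fun x _ => ?_)
    rw [mul_comm, mul_smul]
  simp only at hs ⊢
  rw [e, e, hs]

end Pool.Agent.S12.Typed
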