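import Pool.Agent.S12.TT

/-!
# The topological colouring theorem with colour-dependent constraints

Independent transversals: `E ⊆ V × κ` is the set of allowed pairs (element, colour), `G` a family
of forbidden sets of pairs. If for every `R ⊆ V` every set `S` dominating the pairs over `R` has
`2 |R| ≤ |S| + 1`, then there is a colouring which contains no member of `G`.
-/

set_option autoImplicit false

namespace Pool.Agent.S12.Typed

open Finset Pool.Agent.S12

variable {α κ : Type*} [DecidableEq α] [DecidableEq κ]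

/-- the allowed pairs over `R` -/
def ER (E : Finset (α × κ)) (R : Finset α) : Finset (α × κ) := E.filter (fun p => p.1 ∈ R)

/-- the constraints over `R` -/
def GR (G : Finset (Finset (α × κ))) (R : Finset α) : Finset (Finset (α × κ)) :=
  G.filter (fun g => ∀ p ∈ g, p.1 ∈ R)

lemma mem_ER {E : Finset (α × κ)} {R : Finset α} {p : α × κ} : p ∈ ER E R ↔ p ∈ E ∧ p.1 ∈ R := by
  unfold ER
  rw [Finset.mem_filter]

lemma mem_GR {G : Finset (Finset (α × κ))} {R : Finset α} {g : Finset (α × κ)} :
    g ∈ GR G R ↔ g ∈ G ∧ ∀ p ∈ g, p.1 ∈ R := by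
  unfold GR
  rw [Finset.mem_filter]

lemma ER_mono {E : Finset (α × κ)} {R R' : Finset α} (h : R ⊆ R') : ER E R ⊆ ER E R' := by
  intro p hp
  rw [mem_ER] at hp ⊢
  exact ⟨hp.1, h hp.2⟩

lemma exists_chains (V : Finset α) (E : Finset (α × κ)) (G : Finset (Finset (α × κ)))
    (hG : ∀ g ∈ G, g ⊆ E ∧ 2 ≤ g.card)
    (hdom : ∀ R : Finset α, R ⊆ V → ∀ S : Finset (α × κ), S ⊆ ER E R →
      Dom (ER E R) (GR G R) S → 2 * R.card ≤ S.card + 1) (n : ℕ) :
    ∃ c : Finset α → Ch (α × κ), ∀ R : Finset α, R ⊆ V → R.card ≤ n →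
      c R ∈ Sp {σ | σ ∈ Cx (ER E R) (GR G R) ∧ σ.card = R.card} ∧
      bd (c R) = ∑ v ∈ R, c (R.erase v) ∧ (R = ∅ → c R = Finsupp.single ∅ 1) := by
  induction n with
  | zero =>
    refine ⟨fun _ => Finsupp.single ∅ 1, ?_⟩
    intro R hR hRn
    have hRe : R = ∅ := Finset.card_eq_zero.mp (Nat.le_zero.mp hRn)
    subst hRe
    refine ⟨?_, ?_, fun _ => rfl⟩
    · apply single_mem_Sp
      refine ⟨⟨Finset.empty_subset _, ?_⟩, rfl⟩
      intro g hg hge
      have h1 := (hG g (mem_GR.mp hg).1).2
      rw [Finset.subset_empty.mp hge, Finset.card_empty] at h1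
      omega
    · rw [bd_single]
      simp
  | succ n ih =>
    obtain ⟨c, hc⟩ := ih
    have hex : ∀ R : Finset α, ∃ d : Ch (α × κ), R ⊆ V → R.card = n + 1 →
        d ∈ Sp {σ | σ ∈ Cx (ER E R) (GR G R) ∧ σ.card = R.card} ∧
        bd d = ∑ v ∈ R, c (R.erase v) := by
      intro R
      by_cases hR : R ⊆ V ∧ R.card = n + 1
      swap
      · exact ⟨0, fun h1 h2 => absurd ⟨h1, h2⟩ hR⟩
      obtain ⟨hRV, hRn⟩ := hR
      have hzm : ∑ v ∈ R, c (R.erase v) ∈
          Sp {σ | σ ∈ Cx (ER E R) (GR G R) ∧ σ.card = n} := by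
        apply Submodule.sum_mem
        intro v hv
        have hcard : (R.erase v).card = n := by
          rw [Finset.card_erase_of_mem hv, hRn]
          rfl
        obtain ⟨h1, -, -⟩ := hc (R.erase v) ((Finset.erase_subset v R).trans hRV) hcard.le
        refine Finsupp.supported_mono ?_ h1
        rintro σ ⟨⟨h2, h3⟩, h4⟩
        refine ⟨⟨?_, ?_⟩, h4.trans hcard⟩
        · exact h2.trans (ER_mono (Finset.erase_subset v R))
        · intro g hg hgσ
          refine h3 g (mem_GR.mpr ⟨(mem_GR.mp hg).1, ?_⟩) hgσ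
          intro p hp
          exact (mem_ER.mp (h2 (hgσ hp))).2
      have hbz : bd (∑ v ∈ R, c (R.erase v)) = 0 := by
        rw [map_sum]
        have : ∀ v ∈ R, bd (c (R.erase v)) = ∑ w ∈ R.erase v, c ((R.erase v).erase w) := by
          intro v hv
          have hcard : (R.erase v).card = n := by
            rw [Finset.card_erase_of_mem hv, hRn]
            rfl
          exact (hc (R.erase v) ((Finset.erase_subset v R).trans hRV) hcard.le).2.1
        rw [Finset.sum_congr rfl this]
        exact sum_erase_erase Ch.add_self R c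
      obtain ⟨d, hd, hbd⟩ := acyclic (GR G R).card (ER E R) (GR G R) le_rfl (by
        intro g hg
        rw [mem_GR] at hg
        refine ⟨?_, (hG g hg.1).2⟩
        intro p hp
        rw [mem_ER]
        exact ⟨(hG g hg.1).1 hp, hg.2 p hp⟩) R.card
        (fun S hS hD => hdom R hRV S hS hD) n (by omega) _ hzm hbz
      refine ⟨d, fun _ _ => ⟨?_, hbd⟩⟩
      refine Finsupp.supported_mono ?_ hd
      rintro σ ⟨h1, h2⟩
      exact ⟨h1, by rw [h2, hRn]⟩
    choose d hd using hex
    refine ⟨fun R => if R.card ≤ n then c R else d R, ?_⟩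
    intro R hR hRn
    by_cases hle : R.card ≤ n
    · obtain ⟨h1, h2, h3⟩ := hc R hR hle
      have hval : ∀ v ∈ R, (if (R.erase v).card ≤ n then c (R.erase v) else d (R.erase v))
          = c (R.erase v) := by
        intro v _
        rw [if_pos ((Finset.card_le_card (Finset.erase_subset v R)).trans hle)]
      refine ⟨?_, ?_, ?_⟩
      · simpa only [if_pos hle] using h1
      · simp only [if_pos hle]
        rw [h2, Finset.sum_congr rfl hval]
      · intro h
        simp only [if_pos hle]
        exact h3 h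
    · have hRn1 : R.card = n + 1 := by omega
      obtain ⟨h1, h2⟩ := hd R hR hRn1
      have hval : ∀ v ∈ R, (if (R.erase v).card ≤ n then c (R.erase v) else d (R.erase v))
          = c (R.erase v) := by
        intro v hv
        rw [if_pos]
        rw [Finset.card_erase_of_mem hv]
        omega
      refine ⟨?_, ?_, ?_⟩
      · simpa only [if_neg hle] using h1
      · simp only [if_neg hle]
        rw [h2, Finset.sum_congr rfl hval]
      · intro h
        rw [h, Finset.card_empty] at hRn1
        omega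

/-- number (mod 2) of transversal simplices -/
noncomputable def phi (R : Finset α) : Ch (α × κ) →ₗ[ZMod 2] ZMod 2 :=
  Finsupp.linearCombination (ZMod 2)
    (fun σ : Finset (α × κ) => if σ.image Prod.fst = R ∧ σ.card = R.card then (1 : ZMod 2) else 0)

lemma phi_single (R : Finset α) (σ : Finset (α × κ)) :
    phi R (Finsupp.single σ 1) = if σ.image Prod.fst = R ∧ σ.card = R.card then 1 else 0 := by
  simp [phi]

lemma phi_bd (E : Finset (α × κ)) (R : Finset α) (v : α) (hv : v ∈ R) {x : Ch (α × κ)}
    (hx : x ∈ Sp {σ | σ ⊆ ER E R ∧ σ.card = R.card}) : phi (R.erase v) (bd x) = phi R x := by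
  have := Sp_eq (P := {σ | σ ⊆ ER E R ∧ σ.card = R.card}) (φ := phi  (R.erase v) ∘ₗ bd)
    (ψ := phi R) (by
    rintro σ ⟨hσR, hσc⟩
    rw [LinearMap.comp_apply, bd_single, map_sum]
    simp only [phi_single]
    have hfst : ∀ x ∈ σ, x.1 ∈ R := fun x hx => (mem_ER.mp (hσR hx)).2
    have hec : ∀ x ∈ σ, (σ.erase x).card = (R.erase v).card := by
      intro x hx
      rw [Finset.card_erase_of_mem hx, Finset.card_erase_of_mem hv, hσc]
    rw [← Finset.sum_filter, Finset.sum_const, nsmul_one]
    set N := σ.filter (fun x => (σ.erase x).image Prod.fst = R.erase v ∧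
      (σ.erase x).card = (R.erase v).card) with hN
    have hinj : ∀ x ∈ N, Set.InjOn Prod.fst (σ.erase x : Set (α × κ)) := by
      intro x hx
      rw [hN, Finset.mem_filter] at hx
      rw [← Finset.card_image_iff, hx.2.1, hx.2.2]
    by_cases hA : σ.image Prod.fst = R
    · rw [if_pos ⟨hA, hσc⟩]
      have hinjσ : Set.InjOn Prod.fst (σ : Set (α × κ)) := by
        rw [← Finset.card_image_iff, hA, hσc]
      have hv' : v ∈ σ.image Prod.fst := by rw [hA]; exact hv
      obtain ⟨x0, hx0, hx0v⟩ := Finset.mem_image.mp hv'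
      have hNs : N = {x0} := by
        ext x
        rw [Finset.mem_singleton, hN, Finset.mem_filter]
        constructor
        · rintro ⟨hx, hxi, -⟩
          by_contra hne
          have h1 : x0 ∈ σ.erase x := Finset.mem_erase.mpr ⟨fun h => hne h.symm, hx0⟩
          have h2 : x0.1 ∈ R.erase v := by
            rw [← hxi]
            exact Finset.mem_image_of_mem _ h1
          rw [hx0v] at h2
          exact Finset.notMem_erase v R h2
        · rintro rfl
          refine ⟨hx0, ?_, hec x hx0⟩
          ext w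
          rw [Finset.mem_image, Finset.mem_erase]
          constructor
          · rintro ⟨y, hy, rfl⟩
            rw [Finset.mem_erase] at hy
            refine ⟨?_, hfst y hy.2⟩
            intro h
            exact hy.1 (hinjσ (Finset.mem_coe.mpr hy.2) (Finset.mem_coe.mpr hx0) (h.trans hx0v.symm))
          · rintro ⟨hwv, hwR⟩
            rw [← hA, Finset.mem_image] at hwR
            obtain ⟨y, hy, rfl⟩ := hwR
            refine ⟨y, Finset.mem_erase.mpr ⟨?_, hy⟩, rfl⟩
            rintro rfl
            exact hwv hx0v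
      rw [hNs, Finset.card_singleton, Nat.cast_one]
    · rw [if_neg (fun h => hA h.1)]
      rcases N.eq_empty_or_nonempty with hNe | ⟨x, hxN⟩
      · rw [hNe, Finset.card_empty, Nat.cast_zero]
      · have hxN' := hxN
        rw [hN, Finset.mem_filter] at hxN'
        obtain ⟨hx, hxi, hxc⟩ := hxN'
        have hxv : x.1 ≠ v := by
          intro h
          apply hA
          ext w
          rw [Finset.mem_image]
          constructor
          · rintro ⟨y, hy, rfl⟩
            exact hfst y hy
          · intro hw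
            by_cases hwv : w = v
            · exact ⟨x, hx, h.trans hwv.symm⟩
            · have : w ∈ R.erase v := Finset.mem_erase.mpr ⟨hwv, hw⟩
              rw [← hxi, Finset.mem_image] at this
              obtain ⟨y, hy, hyw⟩ := this
              exact ⟨y, Finset.mem_of_mem_erase hy, hyw⟩
        have hx1 : x.1 ∈ R.erase v := Finset.mem_erase.mpr ⟨hxv, hfst x hx⟩
        rw [← hxi, Finset.mem_image] at hx1
        obtain ⟨x', hx', hxx'⟩ := hx1
        have hx'σ : x' ∈ σ := Finset.mem_of_mem_erase hx'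
        have hne : x' ≠ x := (Finset.mem_erase.mp hx').1
        have hx'i : (σ.erase x').image Prod.fst = R.erase v := by
          rw [← hxi]
          ext w
          rw [Finset.mem_image, Finset.mem_image]
          constructor
          · rintro ⟨y, hy, rfl⟩
            by_cases hyx : y = x
            · exact ⟨x', hx', by rw [hyx, hxx']⟩
            · exact ⟨y, Finset.mem_erase.mpr ⟨hyx, Finset.mem_of_mem_erase hy⟩, rfl⟩
          · rintro ⟨y, hy, rfl⟩
            by_cases hyx : y = x'
            · exact ⟨x, Finset.mem_erase.mpr ⟨hne.symm, hx⟩, by rw [hyx, hxx']⟩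
            · exact ⟨y, Finset.mem_erase.mpr ⟨hyx, Finset.mem_of_mem_erase hy⟩, rfl⟩
        have hNs : N = {x, x'} := by
          ext y
          rw [Finset.mem_insert, Finset.mem_singleton]
          constructor
          · intro hy
            by_contra hcon
            push Not at hcon
            have h1 := hinj y hy (Finset.mem_coe.mpr (Finset.mem_erase.mpr ⟨hcon.1.symm, hx⟩))
              (Finset.mem_coe.mpr (Finset.mem_erase.mpr ⟨hcon.2.symm, hx'σ⟩)) hxx'.symm
            exact hne h1.symm
          · rintro (rfl | rfl)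
            · exact hxN
            · rw [hN, Finset.mem_filter]
              exact ⟨hx'σ, hx'i, hec _ hx'σ⟩
        rw [hNs, Finset.card_pair hne.symm]
        rfl) hx
  simpa using this

/-- **Independent transversals.** -/
theorem transversal [Nonempty κ] (V : Finset α) (E : Finset (α × κ))
    (G : Finset (Finset (α × κ))) (hG : ∀ g ∈ G, g ⊆ E ∧ 2 ≤ g.card)
    (hdom : ∀ R : Finset α, R ⊆ V → ∀ S : Finset (α × κ), S ⊆ ER E R →
      Dom (ER E R) (GR G R) S → 2 * R.card ≤ S.card + 1) :
    ∃ c : α → κ, (∀ v ∈ V, (v, c v) ∈ E) ∧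
      ∀ g ∈ G, (∀ p ∈ g, p.1 ∈ V) → ∃ p ∈ g, c p.1 ≠ p.2 := by
  obtain ⟨c, hc⟩ := exists_chains V E G hG hdom V.card
  have hT : ∀ n : ℕ, ∀ R : Finset α, R ⊆ V → R.card = n → phi R (c R) = 1 := by
    intro n
    induction n with
    | zero =>
      intro R hR hRn
      have hRe : R = ∅ := Finset.card_eq_zero.mp hRn
      subst hRe
      rw [(hc ∅ hR (by simp)).2.2 rfl, phi_single]
      simp
    | succ n ih =>
      intro R hR hRn
      have hRne : R.Nonempty := by
        rw [← Finset.card_pos]
        omega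
      obtain ⟨v, hv⟩ := hRne
      obtain ⟨h1, h2, -⟩ := hc R hR (Finset.card_le_card hR)
      have h3 : c R ∈ Sp {σ | σ ⊆ ER E R ∧ σ.card = R.card} := by
        refine Finsupp.supported_mono ?_ h1
        rintro σ ⟨⟨h4, -⟩, h5⟩
        exact ⟨h4, h5⟩
      rw [← phi_bd E R v hv h3, h2, map_sum]
      have h4 : ∀ w ∈ R, w ≠ v → phi (R.erase v) (c (R.erase w)) = 0 := by
        intro w hw hwv
        obtain ⟨h5, -, -⟩ := hc (R.erase w) ((Finset.erase_subset w R).trans hR)
          ((Finset.card_le_card ((Finset.erase_subset w R).trans hR)))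
        have := Sp_eq (φ := phi (κ := κ) (R.erase v)) (ψ := 0) (by
          rintro σ ⟨⟨h6, -⟩, -⟩
          rw [phi_single, if_neg, LinearMap.zero_apply]
          rintro ⟨h7, -⟩
          have h8 : w ∈ σ.image Prod.fst := by
            rw [h7]
            exact Finset.mem_erase.mpr ⟨hwv, hw⟩
          obtain ⟨y, hy, hyw⟩ := Finset.mem_image.mp h8
          have h9 := (mem_ER.mp (h6 hy)).2
          rw [hyw] at h9
          exact Finset.notMem_erase w R h9) h5
        simpa using this
      rw [Finset.sum_eq_single v (fun w hw hwv => h4 w hw hwv) (fun h => absurd hv h)]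
      apply ih (R.erase v) ((Finset.erase_subset v R).trans hR)
      rw [Finset.card_erase_of_mem hv, hRn]
      rfl
  have hTV := hT V.card V (Finset.Subset.refl V) rfl
  have hex : ∃ σ : Finset (α × κ), σ ∈ Cx (ER E V) (GR G V) ∧ σ.image Prod.fst = V ∧
      σ.card = V.card := by
    by_contra hcon
    push Not at hcon
    obtain ⟨h1, -, -⟩ := hc V (Finset.Subset.refl V) le_rfl
    have := Sp_eq (φ := phi (κ := κ) V) (ψ := 0) (by
      rintro σ ⟨h2, h4⟩
      rw [phi_single, if_neg, LinearMap.zero_apply]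
      rintro ⟨h3, -⟩
      exact hcon σ h2 h3 h4) h1
    rw [hTV] at this
    simp at this
  obtain ⟨σ, ⟨hσV, hσF⟩, hσi, -⟩ := hex
  have hb : ∀ v : α, ∃ b : κ, v ∈ V → (v, b) ∈ σ := by
    intro v
    by_cases hv : v ∈ V
    · rw [← hσi, Finset.mem_image] at hv
      obtain ⟨⟨w, b⟩, hw, hwv⟩ := hv
      simp only at hwv
      subst hwv
      exact ⟨b, fun _ => hw⟩
    · exact ⟨Classical.arbitrary κ, fun h => absurd h hv⟩
  choose col hcol using hb
  refine ⟨col, fun v hv => (mem_ER.mp (hσV (hcol v hv))).1, ?_⟩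
  intro g hg hgV
  by_contra hcon
  push Not at hcon
  apply hσF g (mem_GR.mpr ⟨hg, hgV⟩)
  rintro ⟨v, b⟩ hp
  have h1 := hcon _ hp
  have h2 := hcol v (hgV _ hp)
  simp only at h1
  rw [h1] at h2
  exact h2

/-- **Colouring by absorption, with an absorption relation for each colour.** -/
theorem absorb_typed [Fintype κ] [Nonempty κ] (V : Finset α) (ab : κ → Finset α → α → Prop)
    (mono : ∀ j, ∀ S T : Finset α, ∀ u, S ⊆ T → ab j S u → ab j T u)
    (hdom : ∀ R : Finset α, R ⊆ V → ∀ S : κ → Finset α, (∀ j, S j ⊆ R) →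
      (∀ j, ∀ u ∈ R, u ∉ S j → ab j (S j) u) → 2 * R.card ≤ (∑ j, (S j).card) + 1) :
    ∃ c : α → κ, ∀ j : κ, ∀ B : Finset α, B ⊆ V → B.Nonempty → (∀ x ∈ B, c x = j) →
      ∃ u ∈ B, ¬ ab j (B.erase u) u := by
  classical
  set E : Finset (α × κ) := (V ×ˢ (univ : Finset κ)).filter (fun p => ¬ ab p.2 ∅ p.1) with hE
  set G : Finset (Finset (α × κ)) :=
    ((V.powerset ×ˢ (univ : Finset κ)).filter (fun q => 2 ≤ q.1.card ∧
      (∀ u ∈ q.1, ¬ ab q.2 ∅ u) ∧ ∀ u ∈ q.1, ab q.2 (q.1.erase u) u)).image
      (fun q => q.1 ×ˢ {q.2}) with hGdef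
  have memG : ∀ g, g ∈ G ↔ ∃ f : Finset α, ∃ j : κ, f ⊆ V ∧ 2 ≤ f.card ∧
      (∀ u ∈ f, ¬ ab j ∅ u) ∧ (∀ u ∈ f, ab j (f.erase u) u) ∧ f ×ˢ {j} = g := by
    intro g
    rw [hGdef, Finset.mem_image]
    constructor
    · rintro ⟨⟨f, j⟩, h, rfl⟩
      rw [Finset.mem_filter, Finset.mem_product, Finset.mem_powerset] at h
      exact ⟨f, j, h.1.1, h.2.1, h.2.2.1, h.2.2.2, rfl⟩
    · rintro ⟨f, j, h1, h2, h3, h4, rfl⟩
      refine ⟨(f, j), ?_, rfl⟩
      rw [Finset.mem_filter, Finset.mem_product, Finset.mem_powerset]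
      exact ⟨⟨h1, Finset.mem_univ _⟩, h2, h3, h4⟩
  obtain ⟨c, hcE, hcG⟩ := transversal V E G (by
    intro g hg
    obtain ⟨f, j, h1, h2, h3, -, rfl⟩ := (memG g).mp hg
    refine ⟨?_, by rw [Finset.card_product, Finset.card_singleton, mul_one]; exact h2⟩
    rintro ⟨v, b⟩ hp
    rw [Finset.mem_product, Finset.mem_singleton] at hp
    rw [hE, Finset.mem_filter, Finset.mem_product]
    simp only at hp ⊢
    rw [hp.2]
    exact ⟨⟨h1 hp.1, Finset.mem_univ _⟩, h3 v hp.1⟩) (by
    intro R hR S hS hD
    set Sb : κ → Finset α := fun b => (S.filter (fun p => p.2 = b)).image Prod.fst with hSb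
    have hmem : ∀ (b : κ) (v : α), v ∈ Sb b ↔ (v, b) ∈ S := by
      intro b v
      simp only [hSb, Finset.mem_image, Finset.mem_filter]
      constructor
      · rintro ⟨⟨x, y⟩, ⟨h1, h2⟩, h3⟩
        simp only at h2 h3
        rw [← h2, ← h3]
        exact h1
      · intro h
        exact ⟨(v, b), ⟨h, rfl⟩, rfl⟩
    have hcard : ∀ b, (Sb b).card = (S.filter (fun p => p.2 = b)).card := by
      intro b
      apply Finset.card_image_of_injOn
      rintro ⟨x, y⟩ hx ⟨x', y'⟩ hx' h
      simp only [Finset.coe_filter, Set.mem_ofPred_eq] at hx hx' h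
      rw [h, hx.2, hx'.2]
    have hsum : ∑ b : κ, (Sb b).card = S.card := by
      simp only [hcard]
      exact (Finset.card_eq_sum_card_fiberwise (f := Prod.snd) (t := univ)
        (fun x _ => Finset.mem_coe.mpr (Finset.mem_univ _))).symm
    have := hdom R hR Sb (by
      intro j v hv
      rw [hmem] at hv
      exact (mem_ER.mp (hS hv)).2) (by
      intro j u hu huS
      by_cases h0 : ab j ∅ u
      · exact mono j _ _ u (Finset.empty_subset _) h0
      rw [hmem] at huS
      obtain ⟨g, hg, hug, hgS⟩ := hD (u, j) (by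
        rw [mem_ER, hE, Finset.mem_filter, Finset.mem_product]
        exact ⟨⟨⟨hR hu, Finset.mem_univ _⟩, h0⟩, hu⟩) huS
      obtain ⟨f, j', h1, h2, h3, h4, rfl⟩ := (memG g).mp (mem_GR.mp hg).1
      rw [Finset.mem_product, Finset.mem_singleton] at hug
      obtain ⟨huf, hjj⟩ := hug
      simp only at huf hjj
      rw [← hjj] at h4
      refine mono j _ _ u ?_ (h4 u huf)
      intro w hw
      rw [Finset.mem_erase] at hw
      rw [hmem]
      apply hgS
      rw [Finset.mem_erase, Finset.mem_product, Finset.mem_singleton]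
      refine ⟨?_, hw.2, hjj⟩
      intro h
      exact hw.1 (congrArg Prod.fst h))
    rw [hsum] at this
    exact this)
  refine ⟨c, ?_⟩
  intro j B hBV hBn hBc
  by_contra hcon
  push Not at hcon
  have hnot : ∀ u ∈ B, ¬ ab j ∅ u := by
    intro u hu h0
    have h1 := hcE u (hBV hu)
    rw [hE, Finset.mem_filter, hBc u hu] at h1
    exact h1.2 h0
  by_cases hB2 : 2 ≤ B.card
  · obtain ⟨p, hp, hpne⟩ := hcG (B ×ˢ {j}) ((memG _).mpr ⟨B, j, hBV, hB2, hnot, hcon, rfl⟩) (by
      intro p hp
      exact hBV (Finset.mem_product.mp hp).1)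
    rw [Finset.mem_product, Finset.mem_singleton] at hp
    apply hpne
    rw [hBc _ hp.1, hp.2]
  · have hB1 : B.card = 1 := by
      have := hBn.card_pos
      omega
    obtain ⟨u, hu⟩ := Finset.card_eq_one.mp hB1
    have huB : u ∈ B := by rw [hu]; exact Finset.mem_singleton_self u
    have h1 := hcon u huB
    rw [hu, Finset.erase_singleton] at h1
    exact hnot u huB h1

end Pool.Agent.S12.Typed
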